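import Pool.Agent.H1.CND.SAM
import Pool.Agent.H1.CNH.HCY
import Pool.Agent.H1.CNP.EXI
import Pool.Agent.H1.CNY.YLM
import Pool.Agent.H14.CND.TOT
import Pool.Agent.H14.CNH.UQT
import Pool.Agent.H14.CNS.REG
import Pool.Agent.H14.CNY.YCR
import Pool.Agent.H17.CND.LON
import Pool.Agent.H17.CND.ZPW
import Pool.Agent.H17.CNH.HCN
import Pool.Agent.H17.CNH.HXS
import Pool.Agent.H17.CNL.VE2
import Pool.Agent.H17.CNT.PU2
import Pool.Agent.H18.CND.HBP
import Pool.Agent.H18.CNH.HTR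
import Pool.Agent.H18.CNS.LEX
import Pool.Agent.H18.CNY.YPM
import Pool.Agent.H18.CNY.YTH
import Pool.Agent.H19.CNS.PRD
import Pool.Agent.H2.CND.CNG
import Pool.Agent.H2.CNL.VHT
import Pool.Agent.H2.CNT.PU4
import Pool.Agent.H2.CNT.PUL
import Pool.Agent.H22.CND.ELA
import Pool.Agent.H22.CNL.VPO
import Pool.Agent.H23.CNL.VVG
import Pool.Agent.H23.CNS.FUN
import Pool.Agent.H25.CNL.VIN
import Pool.Agent.H26.CNZ.CJC
import Pool.Agent.H26.CNZ.CMU
import Pool.Agent.H26.CNZ.UQM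
import Pool.Agent.H3.CND.ART
import Pool.Agent.H34.CND.LO2
import Pool.Agent.H34.CNL.VAS
import Pool.Agent.H34.CNL.VVA
import Pool.Agent.H36.CND.CMB
import Pool.Agent.H36.CND.NGD
import Pool.Agent.H36.CND.WLD
import Pool.Agent.H36.CNS.DLS
import Pool.Agent.H40.CND.TMO
import Pool.Agent.H40.CNL.VE3
import Pool.Agent.H40.CNQ.TRV
import Pool.Agent.H40.CNS.PRL
import Pool.Agent.H40.CNT.PU3
import Pool.Agent.H42.CND.ELG
import Pool.Agent.H42.CNH.ABC
import Pool.Agent.H42.CNT.PUN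
import Pool.Agent.H44.CND.MAX
import Pool.Agent.H44.CNS.TAC
import Pool.Agent.H45.CNE.SLX
import Pool.Agent.H45.CNY.HAC
import Pool.Agent.H45.CNY.YOS
import Pool.Agent.H46.CNK.WCA
import Pool.Agent.H46.CNQ.QU1
import Pool.Agent.H46.CNY.YT4
import Pool.Agent.H46.CNY.YTA
import Pool.Agent.H47.CNK.PCQ
import Pool.Agent.H49.CNS.NCL
import Pool.Agent.H50.CND.SYG
import Pool.Agent.H50.CND.UPA
import Pool.Agent.H50.CNL.VIS
import Pool.Agent.H50.CNQ.EXS
import Pool.Agent.H50.CNT.RSP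
import Pool.Agent.H51.CNL.VIC
import Pool.Agent.H51.CNS.PUB
import Pool.Agent.H51.CNY.YCC
import Pool.Agent.H52.CND.VEC
import Pool.Agent.H52.CND.WPG
import Pool.Agent.H52.CNK.OBS
import Pool.Agent.H52.CNS.INF
import Pool.Agent.H53.CNL.VBZ
import Pool.Agent.H54.CND.CONC
import Pool.Agent.H54.CNL.GDW
import Pool.Agent.H55.CNL.INP
import Pool.Agent.H56.CNL.HAP
import Pool.Agent.H62.CND.IRR
import Pool.Agent.H62.CNH.HAB
import Pool.Agent.H62.CNL.PEE
import Pool.Agent.H62.CNS.QCG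
import Pool.Agent.H63.CND.IND
import Pool.Agent.H64.CND.INJ
import Pool.Agent.H65.CNL.VDG
import Pool.Agent.H65.CNS.DER
import Pool.Agent.H65.CNT.PU1
import Pool.Agent.H67.CND.RAM
import Pool.Agent.H67.CNH.HST
import Pool.Agent.H67.CNL.VVB
import Pool.Agent.H67.CNS.DES
import Pool.Agent.H70.CNL.VHY
import Pool.Agent.H70.CNZ.CMA
import Pool.Agent.H71.CND.UMW
import Pool.Agent.H71.CNL.VQQ
import Pool.Agent.H71.CNY.YDV
import Pool.Agent.H72.CNL.KEP
import Pool.Agent.H72.CNS.FRC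
import Pool.Agent.H73.CNP.HBX
import Pool.Agent.H74.CNL.VLA
import Pool.Agent.H74.CNY.YLC
import Pool.Agent.H74.CNY.YLD
import Pool.Agent.H74.CNZ.CUQ
import Pool.Agent.H76.CNK.DRU
import Pool.Agent.H78.CND.RST
import Pool.Agent.H78.CNP.RMX
import Pool.Agent.H78.CNP.WAP
import Pool.Agent.H80.CNK.DRH
import Pool.Agent.H80.CNL.VSM
import Pool.Agent.H81.CNK.PCG
import Pool.Agent.H86.CNK.WCO
import Pool.Agent.H86.CNL.VCZ
import Pool.Agent.H86.CNL.VML
import Pool.Agent.H86.CNQ.ALL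
import Pool.Agent.H86.CNS.PRU
import Pool.Agent.H88.CND.EXP
import Pool.Agent.H88.CND.FXP
import Pool.Agent.H88.CNH.HSD
import Pool.Agent.H89.CNK.DRV
import Pool.Agent.H90.CNP.CNV
import Pool.Agent.H90.CNY.YCY
import Pool.Agent.H91.CNL.VVV
import Pool.Agent.H93.CND.HER
import Pool.Agent.H93.CNL.VE1
import Pool.Agent.H93.CNL.VI1
import Pool.Agent.H99.CND.SUB
import Pool.Agent.H99.CNL.VTG
import Pool.Agent.H99.CNS.LBQ
import Pool.Agent.H99.CNY.YLO

/-!
# Denominators of conductors: the rows used, closed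
-/

set_option autoImplicit false

namespace Pool.CND.CGen

open Pool.CND

theorem rsyg : S_SYG := _root_.Pool.CND.syg_thm
theorem rsub : S_SUB := _root_.Pool.CND.sub_thm
theorem rexp : S_EXP := _root_.Pool.CND.exp_thm
theorem rzpw : S_ZPW := _root_.Pool.CND.zpw_thm
theorem rlon : S_LON := _root_.Pool.CND.lon_thm rexp rzpw
theorem rwpg : S_WPG := _root_.Pool.CND.wpg_thm rlon
theorem rtmo : S_TMO := _root_.Pool.CND.tmo_thm rexp
theorem rwld : S_WLD := _root_.Pool.CND.wld_thm rsub rwpg rtmo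
theorem rinj : S_INJ := _root_.Pool.CND.inj_thm rlon
theorem rram : S_RAM := _root_.Pool.CND.ram_thm rlon rinj
theorem rumw : S_UMW := _root_.Pool.CND.umw_thm rram rlon rinj
theorem rtot : S_TOT := _root_.Pool.CND.tot_thm
theorem rfxp : S_FXP := _root_.Pool.CND.fxp_thm rtot
theorem rrst : S_RST := _root_.Pool.CND.rst_thm
theorem rart : S_ART := _root_.Pool.CND.art_thm
theorem rher : S_HER := _root_.Pool.CND.her_thm rlon rinj
theorem rsam : S_SAM := _root_.Pool.CND.sam_thm rlon rinj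
theorem rlo2 : S_LO2 := _root_.Pool.CND.lo2_thm rexp rzpw rlon
theorem rirr : S_IRR := _root_.Pool.CND.irr_thm rlo2
theorem rhbp : S_HBP := _root_.Pool.CND.hbp_thm rfxp rrst rart rher rsam rirr rumw rinj
theorem rmax : S_MAX := _root_.Pool.CND.max_thm
theorem rcmb : S_CMB := _root_.Pool.CND.cmb_thm
theorem relg : S_ELG := _root_.Pool.CND.elg_thm
theorem rela : S_ELA := _root_.Pool.CND.ela_thm relg rcmb
theorem rind : S_IND := _root_.Pool.CND.ind_thm rmax rcmb rela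
theorem rcon : S_CON := _root_.Pool.CND.con_thm rram
theorem rupa : S_UPA := _root_.Pool.CND.upa_thm rwld rumw rhbp rsyg rind rcon
theorem rvec : S_VEC := _root_.Pool.CND.vec_thm
theorem rcng : S_CNG := _root_.Pool.CND.cng_thm
theorem rngd : S_NGD := _root_.Pool.CND.ngd_thm
theorem rslx : S_SLX := _root_.Pool.CND.slx_thm
theorem rexi : S_EXI := _root_.Pool.CND.exi_thm
theorem rwap : S_WAP := _root_.Pool.CND.wap_thm
theorem rrmx : S_RMX := _root_.Pool.CND.rmx_thm rwap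
theorem rhbx : S_HBX := _root_.Pool.CND.hbx_thm rher rfxp rrst rart rumw rinj rlo2
theorem rcnv : S_CNV := _root_.Pool.CND.cnv_thm rram rumw
theorem rrsp : S_RSP := _root_.Pool.CND.rsp_thm
theorem rpu3 : S_PU3 := _root_.Pool.CND.pu3_thm rrsp
theorem rpu1 : S_PU1 := _root_.Pool.CND.pu1_thm
theorem rpu2 : S_PU2 := _root_.Pool.CND.pu2_thm
theorem rpu4 : S_PU4 := _root_.Pool.CND.pu4_thm rvec rram rinj rlo2 rwpg rtmo
theorem rpul : S_PUL := _root_.Pool.CND.pul_thm rpu1 rpu2 rpu3 rpu4 rrmx rslx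
theorem rpun : S_PUN := _root_.Pool.CND.pun_thm rpul rupa
theorem rabc : S_ABC := _root_.Pool.CND.abc_thm
theorem rhcn : S_HCN := _root_.Pool.CND.hcn_thm
theorem rhxs : S_HXS := _root_.Pool.CND.hxs_thm
theorem rhtr : S_HTR := _root_.Pool.CND.htr_thm rtot rvec
theorem rhsd : S_HSD := _root_.Pool.CND.hsd_thm
theorem rhst : S_HST := _root_.Pool.CND.hst_thm rhcn rhxs rhtr rhsd rlon rinj
theorem rhcy : S_HCY := _root_.Pool.CND.hcy_thm rhst rfxp rrst rart rher rlon rinj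
theorem ruqt : S_UQT := _root_.Pool.CND.uqt_thm
theorem rhab : S_HAB := _root_.Pool.CND.hab_thm rabc rfxp rrst rart rher rhcy ruqt rhsd rlon rinj rumw rwld rsub
theorem rexs : S_EXS := _root_.Pool.CND.exs_thm
theorem rtrv : S_TRV := _root_.Pool.CND.trv_thm rwap
theorem rqu1 : S_QU1 := _root_.Pool.CND.qu1_thm rexs rtrv
theorem rall : S_ALL := _root_.Pool.CND.all_thm rpun
theorem ryth : S_YTH := _root_.Pool.CND.yth_thm rexp rlon
theorem rycy : S_YCY := _root_.Pool.CND.ycy_thm2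
theorem rylc : S_YLC := _root_.Pool.CND.ylc_thm rexp rlon rram rinj
theorem ryta : S_YTA := _root_.Pool.CND.yta_thm rylc rlon rram rinj rumw
theorem rycc : S_YCC := _root_.Pool.CND.ycc_thm
theorem rycr : S_YCR := _root_.Pool.CND.ycr_thm rycc
theorem rypm : S_YPM := _root_.Pool.CND.ypm_thm
theorem ryos : S_YOS := _root_.Pool.CND.yos_thm rypm
theorem rydv : S_YDV := _root_.Pool.CND.ydv_thm rylc ryos
theorem rylm : S_YLM := _root_.Pool.CND.ylm_thm
theorem ryld : S_YLD := _root_.Pool.CND.yld_thm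
theorem rylo : S_YLO := _root_.Pool.CND.ylo_thm rwld rumw rhbp rcon rind rram ryth rycy ryta rycc rycr rydv rylm ryld
theorem rcjc : S_CJC := _root_.Pool.CND.cjc_thm rtrv
theorem rcuq : S_CUQ := _root_.Pool.CND.cuq_thm
theorem rcma : S_CMA := _root_.Pool.CND.cma_thm
theorem rcmu : S_CMU := _root_.Pool.CND.cmu_thm rrsp
theorem ruqm : S_UQM := _root_.Pool.CND.uqm_thm
theorem rhac : S_HAC := _root_.Pool.CND.hac_thm rfxp rrst rart rher ruqt rhab rumw rram rtot
theorem ryt4 : S_YT4 := _root_.Pool.CND.yt4_thm rylo rpun rngd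
theorem rfun : S_FUN := _root_.Pool.CND.fun_thm rrmx
theorem rfrc : S_FRC := _root_.Pool.CND.frc_thm
theorem rqcg : S_QCG := _root_.Pool.CND.qcg_thm rrsp rtot rrmx rfxp rrst rart rher rtrv rwld rtmo rram rumw rinj rlon ruqm ruqt rcon rcnv rsub
theorem rder : S_DER := _root_.Pool.CND.der_thm
theorem rlex : S_LEX := _root_.Pool.CND.lex_thm
theorem rdls : S_DLS := _root_.Pool.CND.dls_thm
theorem rdes : S_DES := _root_.Pool.CND.des_thm rlex rdls
theorem rinf : S_INF := _root_.Pool.CND.inf_thm rrmx rtot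
theorem rreg : S_REG := _root_.Pool.CND.reg_thm rexi
theorem rtac : S_TAC := _root_.Pool.CND.tac_thm rder rdes rfun rinf rreg rfrc rtrv rwld
theorem rncl : S_NCL := _root_.Pool.CND.ncl_thm rqu1 rtrv rwld rtac rrsp
theorem rpub : S_PUB := _root_.Pool.CND.pub_thm rpu1 rpu2 rpu3 rpu4 rlo2 rram rinj rrmx rslx
theorem rlbq : S_LBQ := _root_.Pool.CND.lbq_thm rinf rlon rtrv rwld rsub
theorem rprl : S_PRL := _root_.Pool.CND.prl_thm rpub rcma rcmu rqu1 rqcg rcjc rcuq rtac rlbq rcnv rexi rwld rsub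
theorem rpru : S_PRU := _root_.Pool.CND.pru_thm rqu1 rqcg
theorem rprd : S_PRD := _root_.Pool.CND.prd_thm rprl rpru rall rupa rngd rcng
theorem rwca : S_WCA := _root_.Pool.CND.wca_thm
theorem rwco : S_WCO := _root_.Pool.CND.wco_thm
theorem rpcg : S_PCG := _root_.Pool.CND.pcg_thm
theorem rdru : S_DRU := _root_.Pool.CND.dru_thm
theorem rdrv : S_DRV := _root_.Pool.CND.drv_thm rdru
theorem robs : S_OBS := _root_.Pool.CND.obs_thm
theorem rdrh : S_DRH := _root_.Pool.CND.drh_thm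
theorem rpcq : S_PCQ := _root_.Pool.CND.pcq_thm
theorem rvas : S_VAS := _root_.Pool.CND.vas_thm rumw
theorem rvsm : S_VSM := _root_.Pool.CND.vsm_thm rvas rfxp rrst rher rart rram
theorem rvht : S_VHT := _root_.Pool.CND.vht_thm rvas rvsm rrmx rlo2 rinj
theorem rvvg : S_VVG := _root_.Pool.CND.vvg_thm rvht rvas
theorem rvhy : S_VHY := _root_.Pool.CND.vhy_thm rvas rrmx rhbx
theorem rvva : S_VVA := _root_.Pool.CND.vva_thm rvas rfxp rrst rher rart rinj rtot
theorem rvvb : S_VVB := _root_.Pool.CND.vvb_thm rvas rtot rvec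
theorem rvvv : S_VVV := _root_.Pool.CND.vvv_thm rvas rvva rvvb rtot rvec
theorem rvic : S_VIC := _root_.Pool.CND.vic_thm rvas
theorem rvis : S_VIS := _root_.Pool.CND.vis_thm robs rvhy rvvv rvic rvas
theorem rkep : S_KEP := _root_.Pool.CND.kep_thm rdru
theorem rpee : S_PEE := _root_.Pool.CND.pee_thm rkep rdrv rdru rrmx rtot rvec rwld
theorem rve3 : S_VE3 := _root_.Pool.CND.ve3_thm rvvg rdrh rvvv rvas
theorem rvdg : S_VDG := _root_.Pool.CND.vdg_thm rvas rrmx rtot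
theorem rvtg : S_VTG := _root_.Pool.CND.vtg_thm rvhy rvvv rvvg rvas rtot
theorem rve2 : S_VE2 := _root_.Pool.CND.ve2_thm rvas rwca rvvv
theorem rvbz : S_VBZ := _root_.Pool.CND.vbz_thm rvhy rvvv
theorem rvqq : S_VQQ := _root_.Pool.CND.vqq_thm rwca
theorem rvml : S_VML := _root_.Pool.CND.vml_thm rvqq rvdg rwca
theorem rve1 : S_VE1 := _root_.Pool.CND.ve1_thm rvas rwco rwca rvvv rvbz
theorem rvla : S_VLA := _root_.Pool.CND.vla_thm rvis rvml rve1 rve2 rve3
theorem rvi1 : S_VI1 := _root_.Pool.CND.vi1_thm rvla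
theorem rvpo : S_VPO := _root_.Pool.CND.vpo_thm rvas rlon rinj
theorem rvin : S_VIN := _root_.Pool.CND.vin_thm rvi1 rvsm rvpo rpcg rpcq rvas
theorem rvcz : S_VCZ := _root_.Pool.CND.vcz_thm rvin rvtg rvsm rvpo rpcq rvas
theorem rhap : S_HAP := _root_.Pool.CND.hap_thm rhac rpee rvsm rvcz ruqt rumw
theorem rinp : S_INP := _root_.Pool.CND.inp_thm rhap rmax rcmb rhbp rumw
theorem rgdw : S_GDW := _root_.Pool.CND.gdw_thm rylo rncl rinp rcon rngd rram

end Pool.CND.CGen
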