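import Pool.Agent.H90.Conductors.CGen

/-!
# MP_b57703: `N_G` for all finite groups `G`: denominators, prime-to-`p` part, products, an upper bound
-/

set_option autoImplicit false

namespace Pool.Agent.H90.Conductors.General

open Pool.CND

/-- `z ∈ H` has a nontrivial image in a quotient `H / H₀` which is commutative or (`p` odd) in which all elements of
order `p` are central -/
def GoodSection {G : Type} [Group G] (p : ℕ) (H : Subgroup G) (z : G) : Prop :=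
  ∃ H₀ : Subgroup G, H₀ ≤ H ∧ (∀ h ∈ H, ∀ x ∈ H₀, h * x * h⁻¹ ∈ H₀) ∧ z ∉ H₀ ∧
    ((∀ x ∈ H, ∀ h ∈ H, h * x * h⁻¹ * x⁻¹ ∈ H₀) ∨
      (p ≠ 2 ∧ ∀ x ∈ H, x ^ p ∈ H₀ → ∀ h ∈ H, h * x * h⁻¹ * x⁻¹ ∈ H₀))

/-- the condition on the `p`-subgroup `W` -/
def PCondition {G : Type} [Group G] (p a : ℕ) (W : Subgroup G) : Prop :=
  ∀ z ∈ W, z ≠ 1 → z ^ p = 1 → (∀ w ∈ W, w * z = z * w) →
    ∃ (H : Subgroup G) (d : ℕ), H ≤ W ∧ z ∈ H ∧ GoodSection p H z ∧ d ≤ a ∧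
      Nat.card W = p ^ d * Nat.card H

/-- the condition on the elements of order prime to `p` normalising `W` -/
def TameCondition {G : Type} [Group G] (p r : ℕ) (W : Subgroup G) : Prop :=
  ∀ (g : G) (C : Subgroup G), ¬ p ∣ orderOf g → (∀ w ∈ W, g * w * g⁻¹ ∈ W) → C ≤ W → C ≠ ⊥ →
    (∀ x ∈ C, x ^ p = 1) → (∀ w ∈ W, ∀ x ∈ C, w * x = x * w) → (∀ x ∈ C, g * x * g⁻¹ ∈ C) →
    (∀ s : ℕ, (∃ w ∈ C, w ≠ 1 ∧ g ^ s * w = w * g ^ s) → ∀ w ∈ C, g ^ s * w = w * g ^ s) →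
    ∀ x ∈ C, g ^ r * x = x * g ^ r

/-- at every place over `t = ∞`, the `r`-th powers of the elements of the inertia group centralise the last
ramification group `I_l ≠ 1`, if `l ≥ 1` -/
def LastCentralised {k L G : Type} [Field k] [Field L] [Algebra k L] [Group G]
    (ρ : G →* (L ≃ₐ[k] L)) (t : L) (r : ℕ) : Prop :=
  ∀ (P : Place k L) (l : ℕ), P.ord t < 0 → 1 ≤ l → ram P ρ l ≠ {1} → ram P ρ (l + 1) = {1} →
    ∀ g ∈ ram P ρ 0, ∀ w ∈ ram P ρ l, g ^ r * w = w * g ^ r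

theorem result (p : ℕ) (k G : Type) [Field k] [IsAlgClosed k] [Group G] [Finite G]
    (hp : p.Prime) (hk : CharP k p) :
    (∀ D : ℕ, 1 ≤ D → (NG k G ∣ D ↔ ∀ c ∈ Cond k G, ∃ y : ℤ, (D : ℚ) * c = y)) ∧
    (∀ r : ℕ, 1 ≤ r → ((∃ j : ℕ, NG k G ∣ p ^ j * r) ↔
      ∀ (L : Type) [Field L] [Algebra k L] (ρ : G →* (L ≃ₐ[k] L)) (t : L), IsCover ρ t →
        LastCentralised ρ t r)) ∧
    (∀ (H : Type) [Group H] [Finite H], HasCover k G → HasCover k H →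
      NG k (G × H) = Nat.lcm (NG k G) (NG k H)) ∧
    (∀ a r : ℕ, 1 ≤ r → (∀ W : Subgroup G, (∃ n : ℕ, Nat.card W = p ^ n) →
      Subgroup.normalClosure (W : Set G) = ⊤ → PCondition p a W ∧ TameCondition p r W) →
      NG k G ∣ p ^ a * r) := by
  refine ⟨?_, ?_, ?_, ?_⟩
  · intro D hD
    refine ⟨fun h c hc => ?_, fun h => CGen.rngd k G D hD h⟩
    obtain ⟨z, hz⟩ := CGen.rall p k G c hp hk hc
    obtain ⟨e, rfl⟩ := h
    refine ⟨e * z, ?_⟩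
    push_cast
    rw [← hz]
    ring
  · intro r hr
    rw [CGen.ryt4 p k G r hp hk hr]
    constructor
    · intro h L _ _ ρ t hc P l h1 h2 h3 h4
      exact h L ρ t P l hc h1 h2 h3 h4
    · intro h L _ _ ρ t P l hc h1 h2 h3 h4
      exact h L ρ t hc P l h1 h2 h3 h4
  · intro H _ _ h1 h2
    exact CGen.rprd p k G H hp hk h1 h2
  · intro a r hr h
    refine (CGen.rgdw p k G a r hp hk hr fun W hW hn => ?_).2
    obtain ⟨h1, h2⟩ := h W hW hn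
    refine ⟨fun z hz hz1 hzp hc => h1 z hz hz1 hzp hc, ?_⟩
    intro g C hg hgW hCW hC hE hWC hgC hY
    exact h2 g C hg hgW hCW hC hE.1 hWC hgC hY

end Pool.Agent.H90.Conductors.General
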